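import Pool.Agent.W349.DM.Uniq

/-!
# Part CP of project DM: powers in `ℂ_p`
(helper349)
-/

set_option autoImplicit false

open Filter Topology Pool.Agent.W600.DM

namespace W349.DM

theorem alg_case (p : ℕ) [Fact p.Prime] (y : PadicAlgCl p) (hy : y ≠ 0) :
    ∃ (k : ℕ) (m : ℤ), 1 ≤ k ∧ ‖y ^ k * (p : PadicAlgCl p) ^ m - 1‖ < 1 := by
  have hp := (Fact.out : p.Prime)
  have hpR : (0 : ℝ) < p := by exact_mod_cast hp.pos
  have hp1 : (1 : ℝ) < p := by exact_mod_cast hp.one_lt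
  have hint : IsIntegral ℚ_[p] y := Algebra.IsIntegral.isIntegral y
  haveI : FiniteDimensional ℚ_[p] (IntermediateField.adjoin ℚ_[p] {y}) :=
    IntermediateField.adjoin.finiteDimensional hint
  let E : Submodule ℚ_[p] (PadicAlgCl p) :=
    (IntermediateField.adjoin ℚ_[p] {y}).toSubalgebra.toSubmodule
  haveI : FiniteDimensional ℚ_[p] E := this
  haveI : ProperSpace E := FiniteDimensional.proper ℚ_[p] E
  have hnp : ‖(p : PadicAlgCl p)‖ = (p : ℝ)⁻¹ := by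
    have h1 : (p : PadicAlgCl p) = algebraMap ℚ_[p] (PadicAlgCl p) (p : ℚ_[p]) := by
      rw [map_natCast]
    rw [h1, norm_algebraMap', Padic.norm_p]
  have hp0 : (p : PadicAlgCl p) ≠ 0 := by
    intro h
    rw [h, norm_zero] at hnp
    exact (inv_pos.2 hpR).ne hnp
  have hex : ∀ j : ℕ, ∃ m : ℤ, 1 ≤ ‖y ^ j * (p : PadicAlgCl p) ^ m‖ ∧
      ‖y ^ j * (p : PadicAlgCl p) ^ m‖ ≤ p := by
    intro j
    have hpos : 0 < ‖y ^ j‖ := norm_pos_iff.2 (pow_ne_zero _ hy)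
    obtain ⟨n, hn1, hn2⟩ := exists_mem_Ico_zpow hpos hp1
    refine ⟨n, ?_⟩
    have hpn : (0 : ℝ) < (p : ℝ) ^ n := zpow_pos hpR n
    rw [norm_mul, norm_zpow, hnp, inv_zpow, ← div_eq_mul_inv, one_le_div hpn, div_le_iff₀ hpn]
    refine ⟨hn1, ?_⟩
    rw [zpow_add_one₀ hpR.ne'] at hn2
    linarith
  choose m hm1 hm2 using hex
  have hmem : ∀ j, y ^ j * (p : PadicAlgCl p) ^ (m j) ∈ E := by
    intro j
    change _ ∈ IntermediateField.adjoin ℚ_[p] {y}
    apply mul_mem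
    · exact pow_mem (IntermediateField.mem_adjoin_simple_self ℚ_[p] y) j
    · exact zpow_mem (natCast_mem _ p) _
  let z : ℕ → E := fun j => ⟨y ^ j * (p : PadicAlgCl p) ^ (m j), hmem j⟩
  have hz : ∀ j, z j ∈ Metric.closedBall (0 : E) p := by
    intro j
    rw [mem_closedBall_zero_iff]
    exact hm2 j
  obtain ⟨a, -, φ, hφ, hlim⟩ := tendsto_subseq_of_bounded Metric.isBounded_closedBall hz
  have hc := hlim.cauchySeq
  rw [Metric.cauchySeq_iff] at hc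
  obtain ⟨N, hN⟩ := hc 1 one_pos
  have h1 := hN (N + 1) (by omega) N le_rfl
  have hlt : φ N < φ (N + 1) := hφ (Nat.lt_succ_self N)
  rw [dist_eq_norm] at h1
  have h2 : ‖y ^ (φ (N + 1)) * (p : PadicAlgCl p) ^ (m (φ (N + 1))) -
      y ^ (φ N) * (p : PadicAlgCl p) ^ (m (φ N))‖ < 1 := h1
  set A := y ^ (φ (N + 1)) * (p : PadicAlgCl p) ^ (m (φ (N + 1))) with hA
  set B := y ^ (φ N) * (p : PadicAlgCl p) ^ (m (φ N)) with hB
  have hB1 : 1 ≤ ‖B‖ := hm1 _
  have hB0 : B ≠ 0 := by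
    intro h
    rw [h, norm_zero] at hB1
    linarith
  refine ⟨φ (N + 1) - φ N, m (φ (N + 1)) - m (φ N), by omega, ?_⟩
  have e1 : y ^ (φ (N + 1) - φ N) * (p : PadicAlgCl p) ^ (m (φ (N + 1)) - m (φ N)) - 1 =
      (A - B) / B := by
    rw [sub_div, div_self hB0]
    congr 1
    rw [eq_div_iff hB0, hA, hB, zpow_sub₀ hp0]
    have e2 : y ^ (φ (N + 1)) = y ^ (φ (N + 1) - φ N) * y ^ (φ N) := by
      rw [← pow_add, Nat.sub_add_cancel hlt.le]
    rw [e2]
    have e3 : (p : PadicAlgCl p) ^ (m (φ N)) ≠ 0 := zpow_ne_zero _ hp0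
    field_simp
  rw [e1, norm_div, div_lt_one (by linarith)]
  linarith

theorem cp_main : S_Cp := by
  intro p _ x hx
  have hx0 : 0 < ‖x‖ := norm_pos_iff.2 hx
  obtain ⟨y, hy⟩ := (UniformSpace.Completion.denseRange_coe (α := PadicAlgCl p)).exists_dist_lt x hx0
  rw [dist_eq_norm] at hy
  have hyx : ‖(y : ℂ_[p])‖ = ‖x‖ := by
    have h1 : (y : ℂ_[p]) = -(x - y) + x := by ring
    rw [h1, IsUltrametricDist.norm_add_eq_max_of_norm_ne_norm (by rw [norm_neg]; exact hy.ne),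
      norm_neg, max_eq_right hy.le]
  have hy0 : y ≠ 0 := by
    rintro rfl
    rw [PadicComplex.coe_zero, norm_zero] at hyx
    linarith
  have hyC : (y : ℂ_[p]) ≠ 0 := by
    rw [← norm_pos_iff, hyx]
    exact hx0
  obtain ⟨k, m, hk, h⟩ := alg_case p y hy0
  refine ⟨k, m, hk, ?_⟩
  have h' : ‖(y : ℂ_[p]) ^ k * (p : ℂ_[p]) ^ m - 1‖ < 1 := by
    have e1 : (y : ℂ_[p]) ^ k * (p : ℂ_[p]) ^ m - 1 =
        ((y ^ k * (p : PadicAlgCl p) ^ m - 1 : PadicAlgCl p) : ℂ_[p]) := by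
      rw [PadicComplex.coe_eq, PadicComplex.coe_eq, map_sub, map_mul, map_pow, map_zpow₀,
        map_natCast, map_one]
    rw [e1, PadicComplex.norm_extends]
    exact h
  set u : ℂ_[p] := x / y with hu
  have hu1 : ‖u - 1‖ < 1 := by
    have e1 : u - 1 = (x - y) / y := by
      rw [hu, sub_div, div_self hyC]
    rw [e1, norm_div, hyx, div_lt_one hx0]
    exact hy
  have hun : ‖u‖ ≤ 1 := by
    have e1 : u = 1 + (u - 1) := by ring
    rw [e1]
    exact one_of hu1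
  have huk : ‖u ^ k - 1‖ < 1 := by
    have := pow_diff (x := u) (y := 1) (norm_nonneg (u - 1)) hun (by simp) le_rfl k
    rw [one_pow] at this
    exact this.trans_lt hu1
  have hxu : x = y * u := by
    rw [hu]
    field_simp
  have e2 : x ^ k * (p : ℂ_[p]) ^ m - 1 = ((y : ℂ_[p]) ^ k * (p : ℂ_[p]) ^ m - 1) * u ^ k +
      (u ^ k - 1) := by
    rw [hxu]
    ring
  rw [e2]
  apply add_lt _ huk
  rw [norm_mul, norm_pow]
  calc _ ≤ ‖(y : ℂ_[p]) ^ k * (p : ℂ_[p]) ^ m - 1‖ * 1 :=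
        mul_le_mul_of_nonneg_left (pow_le_one₀ (norm_nonneg _) hun) (norm_nonneg _)
    _ < 1 := by rw [mul_one]; exact h'

end W349.DM
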