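import Pool.Agent.W600.DM.Stm

/-!
# Part UNIQ of project DM
(helper349)
-/

set_option autoImplicit false

open Filter Topology Pool.Agent.W600.DM

namespace W349.DM

section

variable {K : Type} [NontriviallyNormedField K] [IsUltrametricDist K]

theorem add_lt {x y : K} {r : ℝ} (hx : ‖x‖ < r) (hy : ‖y‖ < r) : ‖x + y‖ < r :=
  (IsUltrametricDist.norm_add_le_max x y).trans_lt (max_lt hx hy)

theorem add_le {x y : K} {r : ℝ} (hx : ‖x‖ ≤ r) (hy : ‖y‖ ≤ r) : ‖x + y‖ ≤ r :=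
  (IsUltrametricDist.norm_add_le_max x y).trans (max_le hx hy)

theorem sum_lt {α : Type*} (s : Finset α) (f : α → K) {r : ℝ} (hr : 0 < r)
    (h : ∀ b ∈ s, ‖f b‖ < r) : ‖∑ b ∈ s, f b‖ < r := by
  classical
  induction s using Finset.induction_on with
  | empty => simpa using hr
  | insert b s hb ih =>
    rw [Finset.sum_insert hb]
    exact add_lt (h b (Finset.mem_insert_self _ _))
      (ih fun c hc => h c (Finset.mem_insert_of_mem hc))

theorem one_of {x : K} (h : ‖x‖ < 1) : ‖1 + x‖ ≤ 1 := add_le (by simp) h.le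

theorem pow_diff {x y : K} {r : ℝ} (hr : 0 ≤ r) (hx : ‖x‖ ≤ 1) (hy : ‖y‖ ≤ 1) (hxy : ‖x - y‖ ≤ r)
    (k : ℕ) : ‖x ^ k - y ^ k‖ ≤ r := by
  induction k with
  | zero => simpa using hr
  | succ k ih =>
    have e : x ^ (k + 1) - y ^ (k + 1) = x * (x ^ k - y ^ k) + (x - y) * y ^ k := by ring
    rw [e]
    apply add_le
    · rw [norm_mul]
      calc ‖x‖ * ‖x ^ k - y ^ k‖ ≤ 1 * r := mul_le_mul hx ih (norm_nonneg _) zero_le_one
        _ = r := one_mul r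
    · rw [norm_mul, norm_pow]
      calc ‖x - y‖ * ‖y‖ ^ k ≤ r * 1 :=
            mul_le_mul hxy (pow_le_one₀ (norm_nonneg _) hy) (by positivity) hr
        _ = r := mul_one r

theorem prod_norm {ι : Type*} (s : Finset ι) (x : ι → K) (hx : ∀ j ∈ s, ‖x j‖ ≤ 1) :
    ‖∏ j ∈ s, x j‖ ≤ 1 := by
  rw [norm_prod]
  exact Finset.prod_le_one (fun j _ => norm_nonneg _) hx

theorem prod_diff {ι : Type*} (s : Finset ι) (x y : ι → K) {r : ℝ} (hr : 0 ≤ r)
    (hx : ∀ j ∈ s, ‖x j‖ ≤ 1) (hy : ∀ j ∈ s, ‖y j‖ ≤ 1) (hxy : ∀ j ∈ s, ‖x j - y j‖ ≤ r) :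
    ‖∏ j ∈ s, x j - ∏ j ∈ s, y j‖ ≤ r := by
  classical
  induction s using Finset.induction_on with
  | empty => simpa using hr
  | insert b s hb ih =>
    rw [Finset.prod_insert hb, Finset.prod_insert hb]
    have e : x b * ∏ j ∈ s, x j - y b * ∏ j ∈ s, y j =
        x b * (∏ j ∈ s, x j - ∏ j ∈ s, y j) + (x b - y b) * ∏ j ∈ s, y j := by ring
    rw [e]
    have hbs := Finset.mem_insert_self b s
    have ih' := ih (fun j hj => hx j (Finset.mem_insert_of_mem hj))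
      (fun j hj => hy j (Finset.mem_insert_of_mem hj))
      (fun j hj => hxy j (Finset.mem_insert_of_mem hj))
    apply add_le
    · rw [norm_mul]
      calc ‖x b‖ * ‖∏ j ∈ s, x j - ∏ j ∈ s, y j‖ ≤ 1 * r :=
            mul_le_mul (hx b hbs) ih' (norm_nonneg _) zero_le_one
        _ = r := one_mul r
    · rw [norm_mul]
      calc ‖x b - y b‖ * ‖∏ j ∈ s, y j‖ ≤ r * 1 :=
            mul_le_mul (hxy b hbs) (prod_norm s y fun j hj => hy j (Finset.mem_insert_of_mem hj))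
              (norm_nonneg _) hr
        _ = r := mul_one r

theorem pow_sub_pow_norm {x y : K} {d : ℕ} (hd0 : 0 < ‖(d : K)‖) (hd1 : ‖(d : K)‖ ≤ 1)
    (hx : ‖x‖ < ‖(d : K)‖)
    (hy : ‖y‖ < ‖(d : K)‖) : ‖(1 + x) ^ d - (1 + y) ^ d‖ = ‖(d : K)‖ * ‖x - y‖ := by
  have h1 := geom_sum₂_mul (1 + x) (1 + y) d
  have hx1 : ‖1 + x‖ ≤ 1 := one_of (hx.trans_le hd1)
  have hy1 : ‖1 + y‖ ≤ 1 := one_of (hy.trans_le hd1)
  rw [← h1, norm_mul, show (1 + x) - (1 + y) = x - y by ring]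
  congr 1
  set S := ∑ i ∈ Finset.range d, (1 + x) ^ i * (1 + y) ^ (d - 1 - i) with hS
  have h2 : ‖S - d‖ < ‖(d : K)‖ := by
    have e : S - d = ∑ i ∈ Finset.range d, ((1 + x) ^ i * (1 + y) ^ (d - 1 - i) - 1) := by
      rw [Finset.sum_sub_distrib]
      simp [hS]
    rw [e]
    apply sum_lt _ _ hd0
    intro i _
    have e2 : (1 + x) ^ i * (1 + y) ^ (d - 1 - i) - 1 =
        (1 + x) ^ i * ((1 + y) ^ (d - 1 - i) - 1) + ((1 + x) ^ i - 1) := by ring
    rw [e2]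
    have q1 : ‖(1 + x) ^ i - 1‖ ≤ ‖x‖ := by
      have := pow_diff (x := 1 + x) (y := 1) (norm_nonneg x) hx1 (by simp) (by simp) i
      rwa [one_pow] at this
    have q2 : ‖(1 + y) ^ (d - 1 - i) - 1‖ ≤ ‖y‖ := by
      have := pow_diff (x := 1 + y) (y := 1) (norm_nonneg y) hy1 (by simp) (by simp) (d - 1 - i)
      rwa [one_pow] at this
    apply add_lt
    · rw [norm_mul, norm_pow]
      calc ‖1 + x‖ ^ i * ‖(1 + y) ^ (d - 1 - i) - 1‖ ≤ 1 * ‖y‖ :=
            mul_le_mul (pow_le_one₀ (norm_nonneg _) hx1) q2 (norm_nonneg _) zero_le_one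
        _ < _ := by rw [one_mul]; exact hy
    · exact q1.trans_lt hx
  have h3 : S = (S - d) + d := by ring
  rw [h3, IsUltrametricDist.norm_add_eq_max_of_norm_ne_norm h2.ne, max_eq_right h2.le]

end

theorem small (κ δ C ε : ℝ) (h0 : 0 ≤ κ) (h1 : κ < 1) (hδ : 0 < δ) (d : ℕ) (hd : 2 ≤ d)
    (hε : 0 < ε) (n : ℕ) : ∃ m : ℕ, C * κ ^ (d ^ (n + m)) < δ ^ m * ε := by
  obtain ⟨N, hN⟩ := exists_pow_lt_of_lt_one (show 0 < δ / 2 by positivity) h1
  have t1 : Tendsto (fun m : ℕ => (m : ℝ) ^ 1 / 2 ^ m) atTop (𝓝 0) :=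
    tendsto_pow_const_div_const_pow_of_one_lt 1 one_lt_two
  have t2 : Tendsto (fun m : ℕ => |C| * (1 / 2 : ℝ) ^ m) atTop (𝓝 (|C| * 0)) :=
    (tendsto_pow_atTop_nhds_zero_of_lt_one (by norm_num) (by norm_num)).const_mul _
  rw [mul_zero] at t2
  have e1 := t1.eventually (gt_mem_nhds (show (0 : ℝ) < 1 / (N + 1) by positivity))
  have e2 := t2.eventually (gt_mem_nhds hε)
  obtain ⟨m, hm1, hm2⟩ := (e1.and e2).exists
  refine ⟨m, ?_⟩
  have h3 : m * N ≤ 2 ^ m := by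
    rw [pow_one, div_lt_div_iff₀ (by positivity) (by positivity)] at hm1
    have h4 : (m : ℝ) * N ≤ 2 ^ m := by
      have : (0 : ℝ) ≤ m := by positivity
      nlinarith
    exact_mod_cast h4
  have h4 : 2 ^ m ≤ d ^ (n + m) := by
    calc 2 ^ m ≤ d ^ m := Nat.pow_le_pow_left hd m
      _ ≤ d ^ (n + m) := Nat.pow_le_pow_right (by omega) (by omega)
  have h5 : κ ^ (d ^ (n + m)) ≤ (δ / 2) ^ m := by
    calc κ ^ (d ^ (n + m)) ≤ κ ^ (m * N) := pow_le_pow_of_le_one h0 h1.le (h3.trans h4)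
      _ = (κ ^ N) ^ m := by rw [mul_comm, pow_mul]
      _ ≤ (δ / 2) ^ m := pow_le_pow_left₀ (by positivity) hN.le m
  calc C * κ ^ (d ^ (n + m)) ≤ |C| * κ ^ (d ^ (n + m)) :=
        mul_le_mul_of_nonneg_right (le_abs_self C) (by positivity)
    _ ≤ |C| * (δ / 2) ^ m := mul_le_mul_of_nonneg_left h5 (abs_nonneg C)
    _ = δ ^ m * (|C| * (1 / 2 : ℝ) ^ m) := by
        rw [div_pow, one_div, inv_pow]
        ring
    _ < δ ^ m * ε := mul_lt_mul_of_pos_left hm2 (by positivity)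

theorem uniq_main : S_Uniq := by
  intro K _ _ _ ι _ d hd hdK T a η θ C κ n₀ hκ0 hκ1 ha hη hθ hη' hθ'
  set δ := ‖(d : K)‖ with hδ
  have hδ0 : 0 < δ := norm_pos_iff.2 (Nat.cast_ne_zero.2 (by omega))
  have hpow : Tendsto (fun n : ℕ => C * κ ^ (d ^ n)) atTop (𝓝 0) := by
    have h1 : Tendsto (fun n : ℕ => κ ^ (d ^ n)) atTop (𝓝 0) :=
      (tendsto_pow_atTop_nhds_zero_of_lt_one hκ0 hκ1).comp
        (tendsto_pow_atTop_atTop_of_one_lt (by omega))
    simpa using h1.const_mul C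
  have hev : ∀ᶠ n : ℕ in atTop, n₀ ≤ n ∧ C * κ ^ (d ^ n) < δ ∧
      ∀ i, ∀ β ∈ T i, ‖a i β n‖ < δ := by
    refine (eventually_ge_atTop n₀).and ((hpow.eventually (gt_mem_nhds hδ0)).and ?_)
    rw [eventually_all]
    intro i
    rw [Filter.eventually_all_finset]
    intro β hβ
    have := (ha i β hβ).norm
    rw [norm_zero] at this
    exact this.eventually (gt_mem_nhds hδ0)
  obtain ⟨n₁, hn₁⟩ := eventually_atTop.1 hev
  refine ⟨n₁, fun n hn => ?_⟩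
  by_contra hne
  -- one step
  have step : ∀ n ≥ n₁, ∀ i, (∀ j, ‖η n j - θ n j‖ ≤ ‖η n i - θ n i‖) → 0 < ‖η n i - θ n i‖ →
      δ * ‖η n i - θ n i‖ ≤ ‖η (n + 1) i - θ (n + 1) i‖ := by
    intro n hn i hmax hpos
    obtain ⟨h1, h2, h3⟩ := hn₁ n hn
    have hηs : ∀ j, ‖η n j‖ < δ := fun j => (hη n h1 j).trans_lt h2
    have hθs : ∀ j, ‖θ n j‖ < δ := fun j => (hθ n h1 j).trans_lt h2
    have e1 : η (n + 1) i - θ (n + 1) i = ((1 + η n i) ^ d - (1 + θ n i) ^ d) +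
        ∑ β ∈ T i, a i β n * (∏ j, (1 + η n j) ^ (β j) - ∏ j, (1 + θ n j) ^ (β j)) := by
      have k1 := hη' n h1 i
      have k2 := hθ' n h1 i
      simp only [mul_sub, Finset.sum_sub_distrib]
      linear_combination k2 - k1
    have hA := pow_sub_pow_norm hδ0 hdK.le (hηs i) (hθs i)
    have hB : ‖∑ β ∈ T i, a i β n * (∏ j, (1 + η n j) ^ (β j) - ∏ j, (1 + θ n j) ^ (β j))‖ <
        δ * ‖η n i - θ n i‖ := by
      apply sum_lt _ _ (by positivity)
      intro β hβ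
      rw [norm_mul]
      have k3 : ‖∏ j, (1 + η n j) ^ (β j) - ∏ j, (1 + θ n j) ^ (β j)‖ ≤ ‖η n i - θ n i‖ := by
        apply prod_diff _ _ _ hpos.le
        · intro j _
          rw [norm_pow]
          exact pow_le_one₀ (norm_nonneg _) (one_of ((hηs j).trans hdK))
        · intro j _
          rw [norm_pow]
          exact pow_le_one₀ (norm_nonneg _) (one_of ((hθs j).trans hdK))
        · intro j _
          apply pow_diff hpos.le (one_of ((hηs j).trans hdK)) (one_of ((hθs j).trans hdK))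
          rw [show (1 + η n j) - (1 + θ n j) = η n j - θ n j by ring]
          exact hmax j
      calc ‖a i β n‖ * ‖∏ j, (1 + η n j) ^ (β j) - ∏ j, (1 + θ n j) ^ (β j)‖
          ≤ ‖a i β n‖ * ‖η n i - θ n i‖ := mul_le_mul_of_nonneg_left k3 (norm_nonneg _)
        _ < δ * ‖η n i - θ n i‖ := mul_lt_mul_of_pos_right (h3 i β hβ) hpos
    rw [e1, IsUltrametricDist.norm_add_eq_max_of_norm_ne_norm (by rw [hA]; exact hB.ne')]
    exact (le_of_eq hA.symm).trans (le_max_left _ _)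
  obtain ⟨i₀, hi₀⟩ := Function.ne_iff.1 hne
  haveI : Nonempty ι := ⟨i₀⟩
  set ε := ‖η n i₀ - θ n i₀‖ with hε
  have hε0 : 0 < ε := norm_pos_iff.2 (sub_ne_zero.2 hi₀)
  have hind : ∀ m : ℕ, ∃ i, δ ^ m * ε ≤ ‖η (n + m) i - θ (n + m) i‖ := by
    intro m
    induction m with
    | zero => exact ⟨i₀, by rw [pow_zero, one_mul, add_zero]⟩
    | succ m ih =>
      obtain ⟨i, hi⟩ := ih
      obtain ⟨j, hj⟩ := Finite.exists_max (fun i => ‖η (n + m) i - θ (n + m) i‖)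
      have h1 : δ ^ m * ε ≤ ‖η (n + m) j - θ (n + m) j‖ := hi.trans (hj i)
      refine ⟨j, ?_⟩
      have h2 := step (n + m) (by omega) j hj (lt_of_lt_of_le (by positivity) h1)
      rw [← add_assoc]
      calc δ ^ (m + 1) * ε = δ * (δ ^ m * ε) := by rw [pow_succ]; ring
        _ ≤ δ * ‖η (n + m) j - θ (n + m) j‖ := mul_le_mul_of_nonneg_left h1 hδ0.le
        _ ≤ _ := h2
  obtain ⟨m, hm⟩ := small κ δ C ε hκ0 hκ1 hδ0 d hd hε0 n
  obtain ⟨i, hi⟩ := hind m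
  have hge : n₀ ≤ n + m := by
    have := (hn₁ n hn).1
    omega
  have h1 : ‖η (n + m) i - θ (n + m) i‖ ≤ C * κ ^ (d ^ (n + m)) := by
    rw [sub_eq_add_neg]
    exact add_le (hη _ hge i) (by rw [norm_neg]; exact hθ _ hge i)
  linarith

end W349.DM
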